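import Mathlib
import Pool.Agent.Lib.MP_7592f8.Main

/-!
The maximum total size of non-empty `r`-cross `L`-intersecting families of `k`-subsets of an
`n`-set, together with all extremal tuples, for `r ≥ 3`, every non-interval `L ⊆ [0,k]` and all
`n ≥ n₀(k, r)`.
-/

set_option autoImplicit false

namespace Pool.Agent.Results.MP_7592f8_co.LargeN

open Finset Cross7592

/-- For all `k` and `r ≥ 3` there is `n₀` such that for all `n ≥ n₀` and every non-empty
non-interval `L ⊆ [0,k]`, with `t` the least element of `L` and `j` the least `i` such that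
`t + i` is not in `L`: if `C(k,t) ≥ r` the maximum total size is
`r - 1 + ∑_{l ∈ L} C(k,l) C(n-k,k-l)`, attained exactly by the tuples of type A; if `C(k,t) < r`
it is `(r-2) C(n-t,k-t) + 1 + ∑_{i < j} C(k-t,i) C(n-k,k-t-i)`, attained exactly by the tuples of
type B. -/
theorem result (k r : ℕ) (hr : 3 ≤ r) : ∃ n₀ : ℕ, ∀ n, n₀ ≤ n → ∀ L : Finset ℕ, L.Nonempty →
    (∀ l ∈ L, l ≤ k) → (∀ a b : ℕ, L ≠ Icc a b) → ∀ t j : ℕ, IsLeast (L : Set ℕ) t →
    IsLeast {i : ℕ | t + i ∉ L} j →
      (r ≤ k.choose t →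
        IsGreatest (totals n k r L) (valA n k r L) ∧
        ∀ 𝒜 : Fin r → Finset (Finset (Fin n)),
          (Adm n k r L 𝒜 ∧ total 𝒜 = valA n k r L) ↔ TypeA n k r L 𝒜) ∧
      (k.choose t < r →
        IsGreatest (totals n k r L) (valB n k r t j) ∧
        ∀ 𝒜 : Fin r → Finset (Finset (Fin n)),
          (Adm n k r L 𝒜 ∧ total 𝒜 = valB n k r t j) ↔ TypeB n k r t j 𝒜) :=
  main k r hr

end Pool.Agent.Results.MP_7592f8_co.LargeN
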