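import Mathlib
import Pool.Agent.Lib.MP_7592f8R.Main

/-!
The maximum total size of non-empty `r`-cross `L`-intersecting families of `k`-subsets of an
`n`-set, for all `n > k`, every non-interval `L ⊆ [0,k]` and all `r ≥ (n+1)² (C(n,k)+1)`: the
extremal tuples are those of the first run of `L`, and if the first run has one element the maximum
and all extremal tuples are given explicitly.
-/

set_option autoImplicit false

namespace Pool.Agent.Results.MP_7592f8_co.ManyFamilies

open Finset Cross7592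

/-- Let `k < n` and `r ≥ (n+1)² (C(n,k)+1)`, let `L ⊆ [0,k]` be non-empty and not an interval, `t`
its least element and `j` the least `i` with `t + i ∉ L`.  Then the maximum total size `m` for `L`
is equal to the one for the interval `[t, t+j-1]`, and both are attained by the same tuples.  If
`j = 1` then `m = q + C(n-t-ρ,k-t) + (r-q-1) C(n-t,k-t)`, where `n - t = q (n-k) + ρ`,
`ρ < n - k`, attained exactly by the tuples of type C. -/
theorem result (n k r : ℕ) (hkn : k < n) (hr : (n + 1) ^ 2 * (n.choose k + 1) ≤ r)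
    (L : Finset ℕ) (hk : ∀ l ∈ L, l ≤ k) (hL : ∀ a b : ℕ, L ≠ Icc a b) (t j : ℕ)
    (ht : IsLeast (L : Set ℕ) t) (hj : IsLeast {i : ℕ | t + i ∉ L} j) :
    ∃ m : ℕ, IsGreatest (totals n k r L) m ∧ IsGreatest (totals n k r (Ico t (t + j))) m ∧
      (∀ 𝒜 : Fin r → Finset (Finset (Fin n)),
        (Adm n k r L 𝒜 ∧ total 𝒜 = m) ↔ (Adm n k r (Ico t (t + j)) 𝒜 ∧ total 𝒜 = m)) ∧
      (j = 1 → m = valC n k r t ∧ ∀ 𝒜 : Fin r → Finset (Finset (Fin n)),
        (Adm n k r L 𝒜 ∧ total 𝒜 = m) ↔ TypeC n k r t 𝒜) :=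
  mainR n k r hkn hr L hk hL t j ht hj

end Pool.Agent.Results.MP_7592f8_co.ManyFamilies
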