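import Mathlib
import Pool.Agent.Lib.MP_7592f8N.Main

/-!
The maximum total size of non-empty `r`-cross `L`-intersecting families of `k`-subsets of a
`(k+1)`-set, for all `k`, `r` and `L`.
-/

set_option autoImplicit false

namespace Pool.Agent.Results.MP_7592f8_co.NextToK

open Finset Cross7592

/-- Let `n = k + 1`, `r ≥ 1` and `L ⊆ [0,k]`.  Every non-empty `r`-cross `L`-intersecting tuple of
families of `k`-subsets of an `n`-set is `r`-cross `I`-intersecting for an interval `I ⊆ L`.  If
there is such a tuple, the maximum total size is the largest of the numbers `valN n r a b` over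
all `1 ≤ a ≤ b ≤ n`, `a ≤ r` such that `n - b, ..., n - a` are all in `L`. -/
theorem result (k r : ℕ) (hr : 1 ≤ r) (L : Finset ℕ) (hk : ∀ l ∈ L, l ≤ k) :
    (∀ 𝒜 : Fin r → Finset (Finset (Fin (k + 1))), Adm (k + 1) k r L 𝒜 →
      ∃ a b : ℕ, a ≤ b ∧ Icc a b ⊆ L ∧ Adm (k + 1) k r (Icc a b) 𝒜) ∧
    ((totals (k + 1) k r L).Nonempty →
      IsGreatest (totals (k + 1) k r L) ((runsN k r L).sup fun p => valN (k + 1) r p.1 p.2)) :=
  mainN k r hr L hk

end Pool.Agent.Results.MP_7592f8_co.NextToK
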