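import Mathlib
import Pool.Agent.Lib.MP_7592f8Z.Main
import Pool.Agent.Lib.MP_7592f8P.Main

/-!
All non-empty `r`-cross `{0,k}`-intersecting tuples of families of `k`-subsets of an `n`-set, and
their maximum total size, for all `2 ≤ k ≤ n` and all `r ≥ 2`; for `k = 2`, `r ≥ 3` also all tuples
of maximum total size.
-/

set_option autoImplicit false

namespace Pool.Agent.Results.MP_7592f8_co.ZeroOrK

open Finset Cross7592

/-- Let `2 ≤ k ≤ n` and `r ≥ 2`.  A tuple of families is a non-empty `r`-cross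
`{0,k}`-intersecting tuple of families of `k`-subsets of an `n`-set if and only if the families are
non-empty, consist of `k`-sets and have the structure `StructK`; and the maximum total size of
such a tuple is `valK n k r`.  For `k = 2` and `r ≥ 3` it is attained exactly by the tuples
`Ext2`. -/
theorem result (n k r : ℕ) (hk : 2 ≤ k) (hkn : k ≤ n) (hr : 2 ≤ r) :
    (∀ 𝒜 : Fin r → Finset (Finset (Fin n)), Adm n k r {0, k} 𝒜 ↔
      (∀ i, (𝒜 i).Nonempty ∧ ∀ F ∈ 𝒜 i, #F = k) ∧ StructK n k r 𝒜) ∧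
    IsGreatest (totals n k r {0, k}) (valK n k r) ∧
    (k = 2 → 3 ≤ r → ∀ 𝒜 : Fin r → Finset (Finset (Fin n)),
      (Adm n k r {0, k} 𝒜 ∧ total 𝒜 = valK n k r) ↔ Ext2 n r 𝒜) := by
  refine ⟨(mainZ n k r hk hkn hr).1, (mainZ n k r hk hkn hr).2, ?_⟩
  rintro rfl hr3 𝒜
  have hL : ∀ a b : ℕ, ({0, 2} : Finset ℕ) ≠ Icc a b := fun a b h => by
    have h0 : 0 ∈ Icc a b := by rw [← h]; simp
    have h2 : 2 ∈ Icc a b := by rw [← h]; simp
    have h1 : 1 ∈ ({0, 2} : Finset ℕ) := by
      rw [h, mem_Icc]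
      rw [mem_Icc] at h0 h2
      omega
    simp at h1
  have h2 := main2 n r hkn hr3 {0, 2} (fun l hl => by
    rcases mem_insert.1 hl with rfl | hl
    · omega
    · rw [mem_singleton.1 hl]) hL
  rw [(mainZ n 2 r hk hkn hr).2.unique h2.1]
  exact h2.2 𝒜

end Pool.Agent.Results.MP_7592f8_co.ZeroOrK
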